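import Pool.Agent.N928.EA.Stm

/-!
EA/CNT (helper61 for project EA of helper928): the number of connected sets of `n` vertices
containing `v` is at most `Δ ^ (2 n)`.
-/

set_option autoImplicit false

namespace Pool.Agent.N61.EA

open Pool.Agent.N928.EA Finset

open Classical in
/-- vertex sets of the walks with `m` steps from `x` -/
noncomputable def Q {V : Type} (G : SimpleGraph V) [G.LocallyFinite] : ℕ → V → Finset (Finset V)
  | 0 => fun x => {{x}}
  | m + 1 => fun x => (G.neighborFinset x).biUnion fun y => (Q G m y).image (insert x)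

theorem Q_card {V : Type} (G : SimpleGraph V) [G.LocallyFinite] (Δ : ℕ)
    (hΔ : ∀ v, G.degree v ≤ Δ) (m : ℕ) : ∀ x, (Q G m x).card ≤ Δ ^ m := by
  classical
  induction m with
  | zero => intro x; simp [Q]
  | succ m ih =>
    intro x
    rw [Q]
    refine Finset.card_biUnion_le.trans ?_
    refine (Finset.sum_le_sum (g := fun _ => Δ ^ m) fun y _ =>
      Finset.card_image_le.trans (ih y)).trans ?_
    rw [Finset.sum_const, smul_eq_mul, pow_succ, mul_comm]
    exact Nat.mul_le_mul_left _ (by rw [SimpleGraph.card_neighborFinset_eq_degree]; exact hΔ x)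

open Classical in
theorem mem_Q {V : Type} (G : SimpleGraph V) [G.LocallyFinite] {x y : V} (w : G.Walk x y) :
    w.support.toFinset ∈ Q G w.length x := by
  induction w with
  | nil => simp [Q]
  | cons h p ih =>
    rw [SimpleGraph.Walk.length_cons, Q, SimpleGraph.Walk.support_cons, List.toFinset_cons,
      Finset.mem_biUnion]
    exact ⟨_, by rw [SimpleGraph.mem_neighborFinset]; exact h, Finset.mem_image_of_mem _ ih⟩

/-- a connected set is the vertex set of a closed walk -/
theorem cover {V : Type} (G : SimpleGraph V) (n : ℕ) : ∀ A : Finset V, A.card = n + 1 →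
    (G.induce (A : Set V)).Connected →
    ∃ (x : V) (w : G.Walk x x), w.length = 2 * n ∧ ∀ y, y ∈ w.support ↔ y ∈ A := by
  classical
  induction n with
  | zero =>
    intro A hA _
    obtain ⟨x, rfl⟩ := Finset.card_eq_one.1 hA
    exact ⟨x, SimpleGraph.Walk.nil, rfl, fun y => by simp⟩
  | succ n ih =>
    intro A hA hc
    obtain ⟨a, ha, b, hb, hab⟩ := Finset.one_lt_card.1 (show 1 < A.card by omega)
    have : Nontrivial (A : Set V) :=
      ⟨⟨a, Finset.mem_coe.2 ha⟩, ⟨b, Finset.mem_coe.2 hb⟩, fun h => hab (congrArg Subtype.val h)⟩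
    have : Finite (A : Set V) := A.finite_toSet
    obtain ⟨u, hu⟩ := hc.exists_connected_induce_compl_singleton_of_finite_nontrivial
    have huA : u.1 ∈ A := Finset.mem_coe.1 u.2
    have hu' : (G.induce ((A.erase u.1 : Finset V) : Set V)).Connected := by
      let e : (G.induce (A : Set V)).induce ({u}ᶜ : Set (A : Set V)) ≃g
          G.induce ((A.erase u.1 : Finset V) : Set V) :=
        { toFun := fun x => ⟨x.1.1, by
            rw [Finset.mem_coe, Finset.mem_erase]
            exact ⟨fun h => x.2 (Subtype.ext h), Finset.mem_coe.1 x.1.2⟩⟩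
          invFun := fun x => ⟨⟨x.1, Finset.mem_coe.2
            (Finset.mem_of_mem_erase (Finset.mem_coe.1 x.2))⟩, fun h => by
              have h1 := Finset.ne_of_mem_erase (Finset.mem_coe.1 x.2)
              exact h1 (congrArg Subtype.val h)⟩
          left_inv := fun x => rfl
          right_inv := fun x => rfl
          map_rel_iff' := Iff.rfl }
      exact e.connected_iff.1 hu
    have hcard : (A.erase u.1).card = n + 1 := by
      rw [Finset.card_erase_of_mem huA, hA]
      rfl
    obtain ⟨x, w, hw, hs⟩ := ih _ hcard hu'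
    obtain ⟨z, hz⟩ : ∃ z, (G.induce (A : Set V)).Adj u z := by
      obtain ⟨c, hc'⟩ := exists_ne u
      obtain ⟨p⟩ := hc.preconnected u c
      cases p with
      | nil => exact absurd rfl hc'
      | cons h q => exact ⟨_, h⟩
    have hzA : z.1 ∈ A.erase u.1 := by
      rw [Finset.mem_erase]
      refine ⟨fun h => ?_, Finset.mem_coe.1 z.2⟩
      exact hz.ne (Subtype.ext h.symm)
    have hadj : G.Adj u.1 z.1 := hz
    have hzw : z.1 ∈ w.support := (hs _).2 hzA
    refine ⟨u.1, SimpleGraph.Walk.cons hadj ((w.rotate _ hzw).append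
      (SimpleGraph.Walk.cons hadj.symm SimpleGraph.Walk.nil)), ?_, fun y => ?_⟩
    · simp [hw]
      ring
    · simp [SimpleGraph.Walk.mem_support_append_iff, hs]
      constructor
      · rintro (h | ⟨-, h⟩ | h)
        · rw [h]; exact huA
        · exact h
        · rcases h with h | h
          · rw [h]; exact Finset.mem_coe.1 z.2
          · rw [h]; exact huA
      · intro h
        by_cases hy : y = u.1
        · exact Or.inl hy
        · exact Or.inr (Or.inl ⟨hy, h⟩)

theorem t_CNT : St_CNT := by
  classical
  intro V G _ Δ hΔ hd v n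
  rcases n with _ | n
  · have h : {A : Finset V | v ∈ A ∧ A.card = 0 ∧ (G.induce (A : Set V)).Connected} = ∅ := by
      ext A
      refine ⟨?_, fun h => absurd h (Set.notMem_empty A)⟩
      rintro ⟨h1, h2, -⟩
      rw [Finset.card_eq_zero.1 h2] at h1
      exact absurd h1 (Finset.notMem_empty v)
    rw [h]
    exact ⟨Set.finite_empty, by simp⟩
  · have h : {A : Finset V | v ∈ A ∧ A.card = n + 1 ∧ (G.induce (A : Set V)).Connected} ⊆
        (Q G (2 * n) v : Set (Finset V)) := by
      rintro A ⟨h1, h2, h3⟩
      obtain ⟨x, w, hw, hs⟩ := cover G n A h2 h3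
      have hv := (hs v).2 h1
      have h4 := mem_Q G (w.rotate v hv)
      rw [SimpleGraph.Walk.length_rotate, hw] at h4
      have h5 : (w.rotate v hv).support.toFinset = A := by
        ext y
        rw [List.mem_toFinset, SimpleGraph.Walk.mem_support_rotate_iff, hs]
      rw [h5] at h4
      exact Finset.mem_coe.2 h4
    refine ⟨(Q G (2 * n) v).finite_toSet.subset h, ?_⟩
    refine (Set.ncard_le_ncard h (Q G (2 * n) v).finite_toSet).trans ?_
    rw [Set.ncard_coe_finset]
    exact (Q_card G Δ hd _ v).trans (Nat.pow_le_pow_right hΔ (by omega))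

end Pool.Agent.N61.EA
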